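import Mathlib

set_option autoImplicit false

/-!
# Thompson's 2-length conjecture (MP_da2e15_al): shared definitions and the statements of all parts

Everything takes place inside an ambient group `G`; sections `M / E` are given by pairs `E ≤ M` of
subgroups, and all normality conditions are spelled out elementwise.
-/

namespace Pool.Agent.PLen

open Subgroup
open scoped commutatorElement

section Defs

variable {G : Type*} [Group G]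

/-- `H` normalises `K`. -/
def Nz (H K : Subgroup G) : Prop := ∀ h ∈ H, ∀ k ∈ K, h * k * h⁻¹ ∈ K

/-- `n` is a power of two. -/
def IsP2 (n : ℕ) : Prop := ∃ k : ℕ, n = 2 ^ k

/-- The chain condition: `N 0 ≤ N 1 ≤ ... ≤ N (2 n + 1)`, each member normal in the next one, the
indices being alternately odd and a power of two. -/
def Chain (n : ℕ) (N : ℕ → Subgroup G) : Prop :=
  ∀ i, i < 2 * n + 1 →
    N i ≤ N (i + 1) ∧ Nz (N (i + 1)) (N i) ∧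
      (Even i → Odd ((N i).relIndex (N (i + 1)))) ∧
      (Odd i → IsP2 ((N i).relIndex (N (i + 1))))

/-- The section `M / K` has 2-length at most `n` (witnessed by a subnormal chain). -/
def Lr (n : ℕ) (K M : Subgroup G) : Prop :=
  ∃ N : ℕ → Subgroup G, N 0 = K ∧ N (2 * n + 1) = M ∧ Chain n N

/-- Relative uniqueness: any two `A`-invariant 2-subgroups of the section `M / E` generate a
2-group. -/
def RU (A E M : Subgroup G) : Prop :=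
  ∀ Q₁ Q₂ : Subgroup G, E ≤ Q₁ → E ≤ Q₂ → Q₁ ≤ M → Q₂ ≤ M → Nz A Q₁ → Nz A Q₂ →
    IsP2 (E.relIndex Q₁) → IsP2 (E.relIndex Q₂) → IsP2 (E.relIndex (Q₁ ⊔ Q₂))

end Defs

/-- The inductive statement: bound `c` for the 2-length of solvable groups on which a 2-group of
order at most `m` acts with the uniqueness property. -/
def Bd (m c : ℕ) : Prop :=
  ∀ (G : Type) [Group G] [Finite G] (A L : Subgroup G), IsPGroup 2 A → Nat.card A ≤ m →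
    Group.IsSolvable L → Nz A L → RU A ⊥ L → Lr c ⊥ L

/-- Lemma M. -/
def LemMSt : Prop := ∀ m c : ℕ, Bd m c → ∃ c₁ : ℕ,
  ∀ (G : Type) [Group G] [Finite G] (A H N : Subgroup G), IsPGroup 2 A → Nat.card A ≤ m + 1 →
    Group.IsSolvable H → Nz A H → RU A ⊥ H → N ≤ H → Nz H N →
    ∀ b ∈ A, b ≠ 1 → (∀ x ∈ H, b * x * b⁻¹ * x⁻¹ ∈ N) → Lr c₁ N H

/-- Irreducible solvable groups generated by elements with small commutator. -/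
def IRSt : Prop :=
  ∀ (N U : Type) [Group N] [Finite N] [AddCommGroup U] [Finite U] [DistribMulAction N U],
    Group.IsSolvable N →
    ∀ S : Set N, Subgroup.closure S = ⊤ →
    ∀ K : ℕ, (∀ g ∈ S, Nat.card (Set.range fun u : U => g • u - u) ≤ K) →
    (∀ W : AddSubgroup U, (∀ g : N, ∀ w ∈ W, g • w ∈ W) → W = ⊥ ∨ W = ⊤) →
    (∀ (g : N) (u : U), g • u = u) ∨ Nat.card U ≤ K ^ 6

/-- Solvable linear groups generated by elements with small commutator. -/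
def BCSt : Prop := ∀ K : ℕ, ∃ C : ℕ,
  ∀ (r : ℕ), r.Prime → ∀ (N T : Type) [Group N] [Finite N] [AddCommGroup T] [Finite T]
    [DistribMulAction N T], (∀ t : T, r • t = 0) → Group.IsSolvable N →
    ∀ S : Set N, Subgroup.closure S = ⊤ →
    (∀ g ∈ S, Nat.card (Set.range fun u : T => g • u - u) ≤ K) →
    ∀ C₀ : Subgroup N, (∀ g, g ∈ C₀ ↔ ∀ t : T, g • t = t) → Lr C C₀ ⊤

/-- Section form of the small commutator bound. -/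
def SBSt : Prop := ∀ m c : ℕ, Bd m c → ∀ K : ℕ, ∃ C : ℕ,
  ∀ (G : Type) [Group G] [Finite G] (A H F Z : Subgroup G), IsPGroup 2 A → Nat.card A ≤ m + 1 →
    Group.IsSolvable H → Nz A H → RU A ⊥ H → Z ≤ F → Nz F Z → Nz H F → Nz H Z →
    ∀ r : ℕ, r.Prime → (∀ x ∈ F, x ^ r ∈ Z) → (∀ x ∈ F, ∀ y ∈ F, ⁅x, y⁆ ∈ Z) →
    ∀ b ∈ A, b ≠ 1 → (∀ x ∈ F, b * x * b⁻¹ ∈ F) → (∀ x ∈ Z, b * x * b⁻¹ ∈ Z) →
    ∀ D : Subgroup G, (∀ x, x ∈ D ↔ x ∈ F ∧ x⁻¹ * (b * x * b⁻¹) ∈ Z) → D.relIndex F ≤ K →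
    ∀ C₀ : Subgroup G, (∀ h, h ∈ C₀ ↔ h ∈ H ∧ ∀ x ∈ F, h * x * h⁻¹ * x⁻¹ ∈ Z) → Lr C C₀ H

/-- Theorem I (permutation actions). -/
def ThmISt : Prop := ∀ m c : ℕ, Bd m c → ∃ C₂ : ℕ,
  ∀ (G : Type) [Group G] [Finite G] (A L : Subgroup G), L.Normal → IsPGroup 2 A →
    Nat.card A ≤ m + 1 → Group.IsSolvable L → RU A ⊥ L →
    ∀ (Ω : Type) [Finite Ω] [MulAction G Ω], (∀ ω : Ω, ∃ a ∈ A, a ≠ 1 ∧ a • ω = ω) →
    ∀ C₀ : Subgroup G, (∀ g, g ∈ C₀ ↔ g ∈ L ∧ ∀ ω : Ω, g • ω = ω) → Lr C₂ C₀ L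

/-- The eigenvector lemma. -/
def KSSt : Prop := ∀ m : ℕ, ∃ K₂ : ℕ,
  ∀ (G : Type) [Group G] [Finite G] (F B : Subgroup G), F.Normal → IsPGroup 2 B →
    Nat.card B ≤ m →
    ∀ q : ℕ, q.Prime → q ≠ 2 →
    ∀ (X : Type) [AddCommGroup X] [Finite X] [Nontrivial X] [DistribMulAction G X],
    (∀ x : X, q • x = 0) →
    (∀ x ∈ F, ∀ y ∈ F, (∀ v : X, ⁅x, y⁆ • v = v) ∨ (∀ v : X, ⁅x, y⁆ • v = -v)) →
    (∀ v : X, (∀ b ∈ B, b • v = v) → v = 0) →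
    ∃ b ∈ B, b ≠ 1 ∧ b * b = 1 ∧
      ∀ D : Subgroup G, (∀ x, x ∈ D ↔ x ∈ F ∧ ∀ y ∈ F, ∀ v : X,
        ⁅x⁻¹ * (b * x * b⁻¹), y⁆ • v = v) → D.relIndex F ≤ K₂

/-- The linear theorem. -/
def LinSt : Prop := ∀ m c : ℕ, Bd m c → ∃ C₃ : ℕ,
  ∀ (G : Type) [Group G] [Finite G] (A L R : Subgroup G), L.Normal → R.Normal → IsPGroup 2 A →
    Nat.card A ≤ m + 1 → Group.IsSolvable L → RU A ⊥ L → R ≤ L → IsPGroup 2 R →
    ∀ q : ℕ, q.Prime → q ≠ 2 →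
    ∀ (X : Type) [AddCommGroup X] [Finite X] [DistribMulAction G X], (∀ x : X, q • x = 0) →
    (∀ g ∈ L, (∀ x : X, g • x = x) → g = 1) →
    (∀ x : X, (∀ a ∈ A, a • x = x) → x = 0) →
    Lr C₃ (L ⊓ Subgroup.centralizer (R : Set G)) L

/-- A configuration: a 2-group `P` and a `q`-group `Q` inside `L`, a group `H` normalising both, and
a chief factor `Q₁ / Q₂` of `Q` on which `P` acts nontrivially. -/
structure Cfg {G : Type*} [Group G] (A L : Subgroup G) (q : ℕ) (P Q Q₁ Q₂ H : Subgroup G) :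
    Prop where
  prime : q.Prime
  ne_two : q ≠ 2
  hP : IsPGroup 2 P
  hQ : IsPGroup q Q
  Q₂_le : Q₂ ≤ Q₁
  Q₁_le : Q₁ ≤ Q
  Q_le : Q ≤ L
  P_le : P ≤ H
  H_le : H ≤ L
  HP : Nz H P
  HQ : Nz H Q
  HQ₁ : Nz H Q₁
  HQ₂ : Nz H Q₂
  Q₁Q₂ : Nz Q₁ Q₂
  AP : Nz A P
  AQ : Nz A Q
  AQ₁ : Nz A Q₁
  AQ₂ : Nz A Q₂
  AH : Nz A H
  pow : ∀ x ∈ Q₁, x ^ q ∈ Q₂
  comm : ∀ x ∈ Q₁, ∀ y ∈ Q₁, ⁅x, y⁆ ∈ Q₂
  irr : ∀ W : Subgroup G, Q₂ ≤ W → W ≤ Q₁ → Nz H W → Nz A W → W = Q₂ ∨ W = Q₁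
  nontriv : ∃ p ∈ P, ∃ x ∈ Q₁, p * x * p⁻¹ * x⁻¹ ∉ Q₂

/-- `C₀ = {h ∈ H : [h, P] acts trivially on Q₁ / Q₂}`. -/
def IsCfgKer {G : Type*} [Group G] (P Q₁ Q₂ H C₀ : Subgroup G) : Prop :=
  ∀ h, h ∈ C₀ ↔ h ∈ H ∧ ∀ p ∈ P, ∀ x ∈ Q₁, ⁅h, p⁆ * x * ⁅h, p⁆⁻¹ * x⁻¹ ∈ Q₂

/-- The bound for configurations. -/
def CfgSt : Prop := ∀ m c : ℕ, Bd m c → ∃ C₃ : ℕ,
  ∀ (G : Type) [Group G] [Finite G] (A L : Subgroup G), IsPGroup 2 A → Nat.card A ≤ m + 1 →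
    Group.IsSolvable L → RU A ⊥ L →
    ∀ (q : ℕ) (P Q Q₁ Q₂ H : Subgroup G), Cfg A L q P Q Q₁ Q₂ H →
    ∀ C₀ : Subgroup G, IsCfgKer P Q₁ Q₂ H C₀ → Lr C₃ C₀ H

/-- The reduction to configurations. -/
def REDSt : Prop := ∀ g : ℕ, ∃ g' : ℕ,
  ∀ (G : Type) [Group G] [Finite G] (A L : Subgroup G), L.Normal → IsPGroup 2 A →
    (∃ n₀, Lr n₀ ⊥ L) →
    (∀ K : Subgroup G, K.Normal → K ≤ L → IsPGroup 2 K → K = ⊥) →
    (∀ (q : ℕ) (P Q Q₁ Q₂ H : Subgroup G), Cfg A L q P Q Q₁ Q₂ H →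
      ∀ C₀ : Subgroup G, IsCfgKer P Q₁ Q₂ H C₀ → Lr g C₀ H) →
    Lr g' ⊥ L

/-- Reduction to solvable groups. -/
def SRSt : Prop := ∀ n : ℕ, ∃ g : ℕ,
  ∀ (G : Type) [Group G] [Finite G] (A L : Subgroup G), L.Normal → IsPGroup 2 A →
    (∃ n₀, Lr n₀ ⊥ L) →
    (∀ T : Subgroup G, T ≤ L → Nz A T → Group.IsSolvable T → Lr n ⊥ T) →
    Lr g ⊥ L

end Pool.Agent.PLen
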