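import Mathlib

set_option autoImplicit false

/-!
# The eigenvector lemma, part A: linear algebra over the field with two elements
-/

namespace Pool.Agent.PLen.KSA

/-- A bimultiplicative symmetric form on the group `F`, invariant under the action `θ` of `B`. -/
structure Frm {F B : Type*} [Group F] [Group B] (θ : B →* MulAut F) (φ : F → F → ZMod 2) :
    Prop where
  mul_left : ∀ x y z, φ (x * y) z = φ x z + φ y z
  symm : ∀ x y, φ x y = φ y x
  inv : ∀ c x y, φ (θ c x) (θ c y) = φ x y

namespace Frm

variable {F B : Type*} [Group F] [Group B] {θ : B →* MulAut F} {φ : F → F → ZMod 2}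

lemma mul_right (h : Frm θ φ) (x y z : F) : φ x (y * z) = φ x y + φ x z := by
  rw [h.symm, h.mul_left, h.symm y, h.symm z]

lemma one_left (h : Frm θ φ) (x : F) : φ 1 x = 0 := by
  have := h.mul_left 1 1 x
  rw [mul_one] at this
  exact left_eq_add.mp this

lemma one_right (h : Frm θ φ) (x : F) : φ x 1 = 0 := by rw [h.symm, h.one_left]

lemma inv_left (h : Frm θ φ) (x y : F) : φ x⁻¹ y = φ x y := by
  have h1 := h.mul_left x⁻¹ x y
  rw [inv_mul_cancel, h.one_left] at h1
  have h2 : ∀ a b : ZMod 2, 0 = a + b → a = b := by decide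
  exact h2 _ _ h1

lemma inv_act (h : Frm θ φ) (c : B) (x y : F) : φ (θ c x) y = φ x (θ c⁻¹ y) := by
  have := h.inv c x (θ c⁻¹ y)
  rw [← this]
  congr 1
  simp

/-- the homomorphism `x ↦ φ x (·)` composed with `1 + b`. -/
def psi (h : Frm θ φ) (b : B) : F →* Multiplicative (F → ZMod 2) where
  toFun x := Multiplicative.ofAdd (fun y => φ x y + φ (θ b x) y)
  map_one' := by
    rw [← ofAdd_zero]
    congr 1
    funext y
    simp [h.one_left]
  map_mul' x x' := by
    rw [← ofAdd_add]
    congr 1
    funext y
    simp only [Pi.add_apply, map_mul, h.mul_left]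
    ring

/-- evaluation against a finite family -/
def omega {ι : Type*} (h : Frm θ φ) (w : ι → F) : F →* Multiplicative (ι → ZMod 2) where
  toFun x := Multiplicative.ofAdd (fun i => φ x (w i))
  map_one' := by
    rw [← ofAdd_zero]
    congr 1
    funext y
    simp [h.one_left]
  map_mul' x x' := by
    rw [← ofAdd_add]
    congr 1
    funext y
    simp only [Pi.add_apply, h.mul_left]

lemma mem_ker_psi (h : Frm θ φ) (b : B) (x : F) :
    x ∈ (h.psi b).ker ↔ ∀ y, φ x y + φ (θ b x) y = 0 := by
  rw [MonoidHom.mem_ker]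
  constructor
  · intro hx y
    exact congrFun hx y
  · intro hx
    exact funext hx

lemma mem_ker_omega {ι : Type*} (h : Frm θ φ) (w : ι → F) (x : F) :
    x ∈ (h.omega w).ker ↔ ∀ i, φ x (w i) = 0 := by
  rw [MonoidHom.mem_ker]
  constructor
  · intro hx y
    exact congrFun hx y
  · intro hx
    exact funext hx

lemma card_span_le {V : Type*} [AddCommGroup V] [Module (ZMod 2) V] [Finite V] {κ : Type*}
    (v : κ → V) (s : Finset κ) :
    Nat.card (Submodule.span (ZMod 2) (v '' (s : Set κ))) ≤ 2 ^ s.card := by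
  classical
  rw [Module.natCard_eq_pow_finrank (K := ZMod 2), Nat.card_zmod]
  apply Nat.pow_le_pow_right (by norm_num)
  have h1 := finrank_span_finset_le_card (R := ZMod 2) (s.image v)
  rw [Finset.coe_image] at h1
  exact h1.trans Finset.card_image_le

/-- the counting step of the greedy choice -/
lemma greedy_step [Finite F] [Finite B] (h : Frm θ φ) {κ : Type*} (s : Finset κ) (z : κ → F)
    (bs : κ → B) (b : B)
    (hb : 2 ^ ((Nat.card B + 1) * s.card) < (h.psi b).ker.index) :
    ∃ x : F, (∀ j ∈ s, ∀ c : B, φ x (θ c (z j)) = 0) ∧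
      (fun y => φ x y + φ (θ b x) y) ∉
        Submodule.span (ZMod 2) ((fun j => (fun y => φ (z j) y + φ (θ (bs j) (z j)) y)) ''
          (s : Set κ)) := by
  classical
  by_contra hcon
  push Not at hcon
  set S := Submodule.span (ZMod 2) ((fun j => (fun y => φ (z j) y + φ (θ (bs j) (z j)) y)) ''
          (s : Set κ)) with hS
  let w : B × s → F := fun p => θ p.1 (z p.2)
  let S' : Subgroup (Multiplicative (F → ZMod 2)) := AddSubgroup.toSubgroup S.toAddSubgroup
  have hle : (h.omega w).ker ≤ S'.comap (h.psi b) := by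
    intro x hx
    rw [mem_ker_omega] at hx
    exact hcon x (fun j hj c => hx (c, ⟨j, hj⟩))
  have hidx1 : (h.omega w).ker.index ≤ 2 ^ (Nat.card B * s.card) := by
    rw [Subgroup.index_ker]
    have h1 : Nat.card (h.omega w).range ≤ Nat.card (Multiplicative (B × s → ZMod 2)) :=
      Nat.card_le_card_of_injective _ Subtype.val_injective
    refine h1.trans (le_of_eq ?_)
    have : Nat.card (Multiplicative (B × s → ZMod 2)) = Nat.card (B × s → ZMod 2) := rfl
    rw [this, Nat.card_fun, Nat.card_prod, Nat.card_zmod]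
    simp
  have hidx2 : (S'.comap (h.psi b)).index ≤ 2 ^ (Nat.card B * s.card) :=
    (Subgroup.index_antitone hle).trans hidx1
  have hker : (h.psi b).ker ≤ S'.comap (h.psi b) := by
    intro x hx
    rw [MonoidHom.mem_ker] at hx
    rw [Subgroup.mem_comap, hx]
    exact S'.one_mem
  have hrel : (h.psi b).ker.relIndex (S'.comap (h.psi b)) ≤ 2 ^ s.card := by
    rw [Subgroup.relIndex_ker]
    have h1 : Nat.card (Subgroup.map (h.psi b) (S'.comap (h.psi b))) ≤ Nat.card S' := by
      apply Subgroup.card_le_of_le
      exact Subgroup.map_comap_le _ _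
    have h2 : Nat.card S' = Nat.card S := rfl
    have h3 : Nat.card S ≤ 2 ^ s.card := card_span_le _ s
    exact h1.trans (h2.le.trans h3)
  have := Subgroup.relIndex_mul_index hker
  rw [← this] at hb
  have h3 : (h.psi b).ker.relIndex (S'.comap (h.psi b)) * (S'.comap (h.psi b)).index ≤
      2 ^ s.card * 2 ^ (Nat.card B * s.card) := Nat.mul_le_mul hrel hidx2
  rw [← pow_add] at h3
  have h4 : s.card + Nat.card B * s.card = (Nat.card B + 1) * s.card := by ring
  rw [h4] at h3
  exact absurd hb (not_lt.mpr h3)

/-- the vector `(1 + b) z` -/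
def vec (θ : B →* MulAut F) (φ : F → F → ZMod 2) (b : B) (z : F) : F → ZMod 2 :=
  fun y => φ z y + φ (θ b z) y

/-- greedy choice on a finite set -/
lemma greedy [Finite F] [Finite B] (h : Frm θ φ) {κ : Type*} (bs : κ → B)
    (N : ℕ) (hb : ∀ k, 2 ^ ((Nat.card B + 1) * N) < (h.psi (bs k)).ker.index)
    (s : Finset κ) (hs : s.card ≤ N) :
    ∃ z : κ → F, (∀ i ∈ s, ∀ j ∈ s, i ≠ j → ∀ c : B, φ (z i) (θ c (z j)) = 0) ∧
      LinearIndepOn (ZMod 2) (fun j => vec θ φ (bs j) (z j)) (s : Set κ) := by
  classical
  induction s using Finset.induction_on with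
  | empty => exact ⟨fun _ => 1, by simp, by simp⟩
  | insert a s ha ih =>
    rw [Finset.card_insert_of_notMem ha] at hs
    obtain ⟨z, hz1, hz2⟩ := ih (by omega)
    have hlt : 2 ^ ((Nat.card B + 1) * s.card) < (h.psi (bs a)).ker.index := by
      refine lt_of_le_of_lt ?_ (hb a)
      apply Nat.pow_le_pow_right (by norm_num)
      exact Nat.mul_le_mul_left _ (by omega)
    obtain ⟨x, hx1, hx2⟩ := greedy_step h s z bs (bs a) hlt
    refine ⟨Function.update z a x, ?_, ?_⟩
    · intro i hi j hj hij c
      rw [Finset.mem_insert] at hi hj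
      by_cases hia : i = a
      · subst hia
        have hja : j ≠ i := fun e => hij e.symm
        have hj' : j ∈ s := hj.resolve_left hja
        rw [Function.update_self, Function.update_of_ne hja]
        exact hx1 j hj' c
      · have hi' : i ∈ s := hi.resolve_left hia
        rw [Function.update_of_ne hia]
        by_cases hja : j = a
        · subst hja
          rw [Function.update_self, h.symm, h.inv_act]
          exact hx1 i hi' c⁻¹
        · rw [Function.update_of_ne hja]
          exact hz1 i hi' j (hj.resolve_left hja) hij c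
    · rw [Finset.coe_insert]
      have hcongr : Set.EqOn (fun j => vec θ φ (bs j) (z j))
          (fun j => vec θ φ (bs j) (Function.update z a x j)) (s : Set κ) := by
        intro j hj
        have hja : j ≠ a := fun e => ha (e ▸ hj)
        simp only [Function.update_of_ne hja]
      refine LinearIndepOn.insert (hz2.congr hcongr) ?_
      rw [← hcongr.image_eq]
      simp only [Function.update_self]
      exact hx2

/-- sums in the image of `φ` -/
lemma exists_comb (h : Frm θ φ) {κ : Type*} (s : Finset κ) (α : κ → ZMod 2) (z : κ → F) :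
    ∃ y, ∀ x, φ y x = ∑ j ∈ s, α j * φ (z j) x := by
  classical
  induction s using Finset.induction_on with
  | empty => exact ⟨1, by simp [h.one_left]⟩
  | insert a s ha ih =>
    obtain ⟨y, hy⟩ := ih
    have h2 : ∀ u : ZMod 2, u = 0 ∨ u = 1 := by decide
    rcases h2 (α a) with h0 | h1
    · refine ⟨y, fun x => ?_⟩
      rw [Finset.sum_insert ha, h0, zero_mul, zero_add, hy]
    · refine ⟨z a * y, fun x => ?_⟩
      rw [Finset.sum_insert ha, h1, one_mul, h.mul_left, hy]

/-- CLAIM A. -/
theorem claimA [Finite F] [Finite B] (h : Frm θ φ) {ι : Type*} [Finite ι] (bs : ι → B) (m : ℕ)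
    (hB : Nat.card B ≤ m) (hι : Nat.card ι ≤ m)
    (hb : ∀ i, 2 ^ ((m + 1) * (m * (m + 1))) < (h.psi (bs i)).ker.index) :
    ∃ y : ι → F, (∀ i j, ∀ c : B, φ (y i) (θ c (y j)) = 0) ∧
      LinearIndependent (ZMod 2) (fun i => vec θ φ (bs i) (y i)) := by
  classical
  have := Fintype.ofFinite ι
  have := Fintype.ofFinite B
  obtain ⟨z, hz1, hz2⟩ := greedy h (κ := ι × Fin (m + 1)) (fun k => bs k.1) (m * (m + 1))
    (fun k => lt_of_le_of_lt (Nat.pow_le_pow_right (by norm_num)
      (Nat.mul_le_mul_right _ (by omega))) (hb k.1)) Finset.univ (by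
        rw [Finset.card_univ, Fintype.card_prod, Fintype.card_fin]
        rw [Nat.card_eq_fintype_card] at hι
        exact Nat.mul_le_mul_right _ hι)
  rw [Finset.coe_univ, linearIndepOn_univ_iff] at hz2
  have hz1' : ∀ i j, i ≠ j → ∀ c : B, φ (z i) (θ c (z j)) = 0 :=
    fun i j hij c => hz1 i (Finset.mem_univ _) j (Finset.mem_univ _) hij c
  -- the coefficients
  have hα : ∀ i : ι, ∃ α : Fin (m + 1) → ZMod 2, α ≠ 0 ∧
      ∀ c : B, ∑ j, α j * φ (z (i, j)) (θ c (z (i, j))) = 0 := by
    intro i
    let L : (Fin (m + 1) → ZMod 2) →ₗ[ZMod 2] (B → ZMod 2) :=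
      { toFun := fun α c => ∑ j, α j * φ (z (i, j)) (θ c (z (i, j)))
        map_add' := by
          intro α β
          funext c
          simp only [Pi.add_apply, add_mul, Finset.sum_add_distrib]
        map_smul' := by
          intro r α
          funext c
          simp only [Pi.smul_apply, smul_eq_mul, RingHom.id_apply, Finset.mul_sum, mul_assoc] }
    have hk : LinearMap.ker L ≠ ⊥ := by
      apply LinearMap.ker_ne_bot_of_finrank_lt
      rw [Module.finrank_fintype_fun_eq_card, Module.finrank_fintype_fun_eq_card, Fintype.card_fin]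
      rw [Nat.card_eq_fintype_card] at hB
      omega
    obtain ⟨α, hα1, hα2⟩ := (Submodule.ne_bot_iff _).mp hk
    exact ⟨α, hα2, fun c => congrFun (LinearMap.mem_ker.mp hα1) c⟩
  choose α hα0 hα1 using hα
  have hy : ∀ i : ι, ∃ y, ∀ x, φ y x = ∑ j, α i j * φ (z (i, j)) x := fun i =>
    exists_comb h Finset.univ (α i) (fun j => z (i, j))
  choose y hy using hy
  refine ⟨y, ?_, ?_⟩
  · intro i i' c
    have e1 : φ (y i) (θ c (y i')) =
        ∑ j, ∑ j', α i j * (α i' j' * φ (z (i', j')) (θ c⁻¹ (z (i, j)))) := by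
      rw [hy]
      refine Finset.sum_congr rfl fun j _ => ?_
      rw [← Finset.mul_sum]
      congr 1
      rw [h.symm, h.inv_act, hy]
    rw [e1]
    by_cases hii : i = i'
    · subst hii
      have e2 : ∀ j, ∑ j', α i j * (α i j' * φ (z (i, j')) (θ c⁻¹ (z (i, j)))) =
          α i j * φ (z (i, j)) (θ c⁻¹ (z (i, j))) := by
        intro j
        rw [Finset.sum_eq_single j]
        · have h2 : ∀ u v : ZMod 2, u * (u * v) = u * v := by decide
          exact h2 _ _
        · intro j' _ hjj
          rw [hz1' (i, j') (i, j) (by simpa using hjj)]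
          simp
        · intro hj
          exact absurd (Finset.mem_univ _) hj
      rw [Finset.sum_congr rfl fun j _ => e2 j]
      exact hα1 i c⁻¹
    · refine Finset.sum_eq_zero fun j _ => Finset.sum_eq_zero fun j' _ => ?_
      rw [hz1' (i', j') (i, j) (by
        intro e
        exact hii (congrArg Prod.fst e).symm)]
      simp
  · rw [Fintype.linearIndependent_iff]
    intro β hβ i
    have hvec : ∀ i, vec θ φ (bs i) (y i) = ∑ j, α i j • vec θ φ (bs i) (z (i, j)) := by
      intro i
      funext x
      simp only [vec, Finset.sum_apply, Pi.smul_apply, smul_eq_mul, mul_add,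
        Finset.sum_add_distrib]
      rw [h.inv_act, hy, hy]
      congr 1
      refine Finset.sum_congr rfl fun j _ => ?_
      rw [h.inv_act]
    have hsum : ∑ k : ι × Fin (m + 1), (β k.1 * α k.1 k.2) • vec θ φ (bs k.1) (z k) = 0 := by
      rw [Fintype.sum_prod_type, ← hβ]
      refine Finset.sum_congr rfl fun i _ => ?_
      rw [hvec, Finset.smul_sum]
      refine Finset.sum_congr rfl fun j _ => ?_
      rw [mul_smul]
    rw [Fintype.linearIndependent_iff] at hz2
    have hz3 := hz2 _ hsum
    by_contra hβi
    apply hα0 i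
    funext j
    have := hz3 (i, j)
    simp only [mul_eq_zero] at this
    exact this.resolve_left hβi

lemma vec_mul (h : Frm θ φ) (b : B) (z x x' : F) :
    vec θ φ b z (x * x') = vec θ φ b z x + vec θ φ b z x' := by
  simp only [vec, h.mul_right]
  ring

/-- duality: independent vectors can be given arbitrary values -/
theorem exists_eval (h : Frm θ φ) {ι : Type*} [Finite ι] (u : ι → F) (bs : ι → B)
    (hli : LinearIndependent (ZMod 2) (fun i => vec θ φ (bs i) (u i))) (ε : ι → ZMod 2) :
    ∃ x, ∀ i, vec θ φ (bs i) (u i) x = ε i := by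
  classical
  have := Fintype.ofFinite ι
  let M : Submodule (ZMod 2) (ι → ZMod 2) :=
    { carrier := {m | ∃ x, ∀ i, vec θ φ (bs i) (u i) x = m i}
      add_mem' := by
        rintro m m' ⟨x, hx⟩ ⟨x', hx'⟩
        exact ⟨x * x', fun i => by rw [h.vec_mul, hx, hx']; rfl⟩
      zero_mem' := ⟨1, fun i => by simp [vec, h.one_right]⟩
      smul_mem' := by
        rintro c m ⟨x, hx⟩
        have h2 : c = 0 ∨ c = 1 := by revert c; decide
        rcases h2 with rfl | rfl
        · exact ⟨1, fun i => by simp [vec, h.one_right]⟩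
        · exact ⟨x, fun i => by rw [one_smul, hx]⟩ }
  by_cases hM : M = ⊤
  · have : ε ∈ M := hM ▸ Submodule.mem_top
    exact this
  · exfalso
    obtain ⟨f, hf0, hf⟩ := Submodule.exists_le_ker_of_lt_top M (lt_top_iff_ne_top.mpr hM)
    rw [Fintype.linearIndependent_iff] at hli
    have h1 := hli (fun i => f (fun j => if i = j then 1 else 0)) (by
      funext x
      have hx : (fun i => vec θ φ (bs i) (u i) x) ∈ LinearMap.ker f := hf ⟨x, fun i => rfl⟩
      rw [LinearMap.mem_ker, LinearMap.pi_apply_eq_sum_univ] at hx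
      rw [Finset.sum_apply, Pi.zero_apply]
      refine Eq.trans (Finset.sum_congr rfl fun i _ => ?_) hx
      rw [Pi.smul_apply, smul_eq_mul, smul_eq_mul, mul_comm])
    apply hf0
    ext i
    have h2 := h1 i
    simp only [LinearMap.coe_comp, Function.comp_apply, LinearMap.coe_single,
      LinearMap.zero_apply]
    rw [← h2]
    congr 1
    funext j
    by_cases hij : i = j
    · subst hij; simp
    · simp [hij, Ne.symm hij]

end Frm

end Pool.Agent.PLen.KSA
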