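import Mathlib

set_option autoImplicit false

/-!
# The eigenvector lemma, part B: common eigenvectors
-/

namespace Pool.Agent.PLen.KSB

open Module

section Eig

variable {k V : Type*} [Field k] [AddCommGroup V] [Module k V]

/-- commuting operators on a nonzero finite-dimensional space over an algebraically closed field
have a common eigenvector -/
theorem exists_common_eigenvector [IsAlgClosed k] [FiniteDimensional k V] [Nontrivial V]
    {ι : Type*} [Finite ι] (t : ι → End k V) (hc : ∀ i j, Commute (t i) (t j)) :
    ∃ v : V, v ≠ 0 ∧ ∃ ν : ι → k, ∀ i, t i v = ν i • v := by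
  classical
  have := Fintype.ofFinite ι
  suffices h : ∀ s : Finset ι, ∃ v : V, v ≠ 0 ∧ ∃ ν : ι → k, ∀ i ∈ s, t i v = ν i • v by
    obtain ⟨v, hv, ν, hν⟩ := h Finset.univ
    exact ⟨v, hv, ν, fun i => hν i (Finset.mem_univ _)⟩
  intro s
  induction s using Finset.induction_on with
  | empty =>
    obtain ⟨v, hv⟩ := exists_ne (0 : V)
    exact ⟨v, hv, 0, by simp⟩
  | insert a s ha ih =>
    obtain ⟨v, hv, ν, hν⟩ := ih
    let W : Submodule k V :=
      { carrier := {w | ∀ i ∈ s, t i w = ν i • w}
        add_mem' := by
          intro x y hx hy i hi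
          rw [map_add, hx i hi, hy i hi, smul_add]
        zero_mem' := by
          intro i _
          simp
        smul_mem' := by
          intro c x hx i hi
          rw [map_smul, hx i hi, smul_comm] }
    have hW : ∀ w ∈ W, t a w ∈ W := by
      intro w hw i hi
      have h1 : t i (t a w) = t a (t i w) := LinearMap.congr_fun (hc i a) w
      rw [h1, hw i hi, map_smul]
    have hvW : v ∈ W := hν
    have : Nontrivial W := ⟨⟨v, hvW⟩, 0, by
      intro e
      exact hv (congrArg Subtype.val e)⟩
    obtain ⟨μ, hμ⟩ := End.exists_eigenvalue ((t a).restrict hW)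
    obtain ⟨w, hw⟩ := hμ.exists_hasEigenvector
    refine ⟨w, ?_, Function.update ν a μ, ?_⟩
    · intro e
      exact hw.2 (Subtype.ext e)
    · intro i hi
      rw [Finset.mem_insert] at hi
      by_cases hia : i = a
      · subst hia
        rw [Function.update_self]
        have h1 := hw.apply_eq_smul
        have h2 := congrArg Subtype.val h1
        simpa using h2
      · rw [Function.update_of_ne hia]
        exact w.2 i (hi.resolve_left hia)

/-- eigenvectors with distinct systems of eigenvalues are independent -/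
theorem eq_zero_of_sum_eq_zero {I J : Type*} [DecidableEq I] (t : J → End k V) (ν : I → J → k)
    (s : Finset I) (hν : ∀ i ∈ s, ∀ i' ∈ s, i ≠ i' → ∃ j, ν i j ≠ ν i' j) :
    ∀ w : I → V, (∀ i ∈ s, ∀ j, t j (w i) = ν i j • w i) → ∑ i ∈ s, w i = 0 →
      ∀ i ∈ s, w i = 0 := by
  induction s using Finset.induction_on with
  | empty => simp
  | insert a s ha ih =>
    intro w hw hsum
    have ih' := ih (fun i hi i' hi' => hν i (Finset.mem_insert_of_mem hi) i'
      (Finset.mem_insert_of_mem hi'))
    rw [Finset.sum_insert ha] at hsum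
    have hs0 : ∀ i ∈ s, w i = 0 := by
      intro i hi
      have hia : i ≠ a := fun e => ha (e ▸ hi)
      obtain ⟨j, hj⟩ := hν i (Finset.mem_insert_of_mem hi) a (Finset.mem_insert_self _ _) hia
      have h1 := ih' (fun i => (ν i j - ν a j) • w i) (by
        intro i hi j'
        simp only [map_smul]
        rw [hw i (Finset.mem_insert_of_mem hi) j', smul_comm]) (by
        have h2 : t j (w a + ∑ i ∈ s, w i) - ν a j • (w a + ∑ i ∈ s, w i) = 0 := by
          rw [hsum]; simp
        rw [map_add, map_sum, smul_add, hw a (Finset.mem_insert_self _ _) j, Finset.smul_sum,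
          add_sub_add_left_eq_sub, ← Finset.sum_sub_distrib] at h2
        rw [← h2]
        refine Finset.sum_congr rfl fun i hi => ?_
        rw [hw i (Finset.mem_insert_of_mem hi) j, sub_smul]) i hi
      exact (smul_eq_zero.mp h1).resolve_left (sub_ne_zero.mpr hj)
    intro i hi
    rw [Finset.mem_insert] at hi
    rcases hi with rfl | hi
    · rw [Finset.sum_eq_zero hs0, add_zero] at hsum
      exact hsum
    · exact hs0 i hi

end Eig

section Sign

variable {G X : Type*} [Group G] [AddCommGroup X] [DistribMulAction G X]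

/-- `g` acts on `X` as the sign `(-1) ^ a` -/
def P (X : Type*) [AddCommGroup X] [DistribMulAction G X] (g : G) (a : ZMod 2) : Prop :=
  ∀ v : X, g • v = if a = 0 then v else -v

lemma zmod2_cases (a : ZMod 2) : a = 0 ∨ a = 1 := by revert a; decide

lemma P.mul {g h : G} {a b : ZMod 2} (hg : P X g a) (hh : P X h b) : P X (g * h) (a + b) := by
  intro v
  rw [mul_smul, hh v]
  rcases zmod2_cases a with rfl | rfl <;> rcases zmod2_cases b with rfl | rfl
  · simpa using hg v
  · have := hg (-v)
    simpa using this
  · have := hg v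
    simpa using this
  · have := hg (-v)
    have h11 : (1 : ZMod 2) + 1 = 0 := by decide
    rw [h11]
    simpa using this

lemma P.inv {g : G} {a : ZMod 2} (hg : P X g a) : P X g⁻¹ a := by
  intro v
  rw [inv_smul_eq_iff]
  rcases zmod2_cases a with rfl | rfl
  · have := hg v
    simpa using this.symm
  · have := hg (-v)
    simpa using this.symm

lemma P.conj {g : G} {a : ZMod 2} (hg : P X g a) (x : G) : P X (x * g * x⁻¹) a := by
  intro v
  rw [mul_smul, mul_smul, hg]
  rcases zmod2_cases a with rfl | rfl <;> simp

lemma P.unique {g : G} {a b : ZMod 2} (hX : ∃ v : X, v ≠ -v) (ha : P X g a) (hb : P X g b) :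
    a = b := by
  obtain ⟨v, hv⟩ := hX
  have h1 := ha v
  rw [hb v] at h1
  rcases zmod2_cases a with rfl | rfl <;> rcases zmod2_cases b with rfl | rfl
  · rfl
  · simp at h1
    exact absurd h1.symm hv
  · simp at h1
    exact absurd h1 hv
  · rfl

end Sign

section Dual

variable {G X : Type*} [Group G] [AddCommGroup X] [DistribMulAction G X] (k : Type*) [Field k]

/-- the dual representation -/
def rep (X : Type*) [AddCommGroup X] [DistribMulAction G X] (g : G) : End k (X →+ k) where
  toFun f := f.comp (DistribSMul.toAddMonoidHom X g⁻¹)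
  map_add' f f' := by
    ext v
    simp
  map_smul' c f := by
    ext v
    simp

@[simp] lemma rep_apply (g : G) (f : X →+ k) (v : X) : rep k X g f v = f (g⁻¹ • v) := rfl

lemma rep_mul (g h : G) (f : X →+ k) : rep k X (g * h) f = rep k X g (rep k X h f) := by
  ext v
  simp [mul_smul]

lemma rep_one (f : X →+ k) : rep k X (1 : G) f = f := by
  ext v
  simp

lemma rep_P {g : G} {a : ZMod 2} (hg : P X g a) (f : X →+ k) :
    rep k X g f = if a = 0 then f else -f := by
  ext v
  rw [rep_apply, hg.inv v]
  rcases zmod2_cases a with rfl | rfl <;> simp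

lemma finiteDimensional_dual [Finite X] : FiniteDimensional k (X →+ k) := by
  let L : (X →+ k) →ₗ[k] (X → k) :=
    { toFun := fun f => f
      map_add' := fun f g => rfl
      map_smul' := fun c f => rfl }
  have hL : Function.Injective L := fun f g hfg => DFunLike.coe_injective hfg
  exact FiniteDimensional.of_injective L hL

lemma exists_hom_ne_zero (q : ℕ) [Fact q.Prime] [Module (ZMod q) X] (x : X) (hx : x ≠ 0) :
    ∃ φ : X →+ ZMod q, φ x ≠ 0 := by
  have h1 : ¬ ∀ φ : Module.Dual (ZMod q) X, φ x = 0 := by
    intro h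
    exact hx ((Module.forall_dual_apply_eq_zero_iff (ZMod q) x).mp h)
  push Not at h1
  obtain ⟨φ, hφ⟩ := h1
  exact ⟨φ.toAddMonoidHom, hφ⟩

lemma nontrivial_dual (q : ℕ) [Fact q.Prime] [Algebra (ZMod q) k] [Nontrivial X]
    (hX : ∀ x : X, q • x = 0) : Nontrivial (X →+ k) := by
  obtain ⟨x, hx⟩ := exists_ne (0 : X)
  obtain ⟨φ, hφ⟩ := @exists_hom_ne_zero X _ q _ (AddCommGroup.zmodModule hX) x hx
  refine ⟨⟨(algebraMap (ZMod q) k : ZMod q →+ k).comp φ, 0, ?_⟩⟩
  intro e
  have h2 := DFunLike.congr_fun e x
  simp at h2
  exact hφ h2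

end Dual

end Pool.Agent.PLen.KSB
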