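import Pool.Agent.PLen.Defs
import Pool.Agent.PLen.KSA
import Pool.Agent.PLen.KSB

set_option autoImplicit false

/-!
# The eigenvector lemma `KSSt`
-/

namespace Pool.Agent.PLen

open KSA KSB Module
open scoped commutatorElement

/-- the core of the eigenvector argument, with the commuting family already chosen -/
theorem ks_core {G : Type} [Group G] [Finite G] (F B : Subgroup G) (hF : F.Normal)
    (hB2 : IsPGroup 2 B) (q : ℕ) (hq : q.Prime) (hq2 : q ≠ 2)
    {X : Type} [AddCommGroup X] [Finite X] [Nontrivial X] [DistribMulAction G X]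
    (hX : ∀ x : X, q • x = 0)
    (hfix : ∀ v : X, (∀ b ∈ B, b • v = v) → v = 0)
    (φ : F → F → ZMod 2) (hφ : ∀ x y : F, P X ⁅(x : G), (y : G)⁆ (φ x y))
    (θ : B →* MulAut F) (hθ : ∀ (c : B) (x : F), ((θ c x : F) : G) = c * x * (c : G)⁻¹)
    (hfrm : Frm θ φ)
    (y : {b : B // b ≠ 1 ∧ b * b = 1} → F)
    (hy1 : ∀ i j, ∀ c : B, φ (y i) (θ c (y j)) = 0)
    (hy2 : LinearIndependent (ZMod 2)
      (fun i : {b : B // b ≠ 1 ∧ b * b = 1} => Frm.vec θ φ i.1 (y i))) : False := by
  classical
  have : Fact q.Prime := ⟨hq⟩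
  have : Fintype B := Fintype.ofFinite B
  let k := AlgebraicClosure (ZMod q)
  have h2k : (2 : k) ≠ 0 := by
    intro e
    have h1 : ((2 : ℕ) : k) = 0 := by exact_mod_cast e
    rw [CharP.cast_eq_zero_iff k q 2] at h1
    exact hq2 ((Nat.prime_dvd_prime_iff_eq hq Nat.prime_two).mp h1)
  have : FiniteDimensional k (X →+ k) := finiteDimensional_dual k
  have : Nontrivial (X →+ k) := nontrivial_dual k q hX
  -- the commuting family
  let τ : B × {b : B // b ≠ 1 ∧ b * b = 1} → F := fun j => θ j.1 (y j.2)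
  have hττ : ∀ j j', φ (τ j) (τ j') = 0 := by
    intro j j'
    have h1 : φ (τ j) (τ j') = φ (y j.2) (θ (j.1⁻¹ * j'.1) (y j'.2)) := by
      change φ (θ j.1 (y j.2)) (θ j'.1 (y j'.2)) = _
      rw [hfrm.inv_act, map_mul]
      rfl
    rw [h1]
    exact hy1 _ _ _
  have hswap : ∀ (g x : F) (f : X →+ k), rep k X (g : G) (rep k X (x : G) f) =
      if φ g x = 0 then rep k X (x : G) (rep k X (g : G) f)
        else - rep k X (x : G) (rep k X (g : G) f) := by
    intro g x f
    rw [← rep_mul, ← rep_mul]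
    have h1 : (g : G) * x = ⁅(g : G), (x : G)⁆ * (x * g) := by
      rw [commutatorElement_def]; group
    rw [h1, rep_mul, rep_P k (hφ g x)]
  obtain ⟨v₀, hv₀, ν₀, hν₀⟩ := exists_common_eigenvector (k := k) (V := X →+ k)
    (fun j => rep k X ((τ j : F) : G)) (by
      intro j j'
      apply LinearMap.ext
      intro f
      have h1 := hswap (τ j) (τ j') f
      rw [if_pos (hττ j j')] at h1
      exact h1)
  have hν₀0 : ∀ j, ν₀ j ≠ 0 := by
    intro j e
    have h1 := hν₀ j
    rw [e, zero_smul] at h1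
    apply hv₀
    rw [← rep_one (G := G) k v₀, ← inv_mul_cancel ((τ j : F) : G), rep_mul, h1, map_zero]
  -- choice of signs
  obtain ⟨x, hx⟩ := hfrm.exists_eval y (fun i => i.1) hy2
    (fun i => if ν₀ (i.1, i) = ν₀ (1, i) then 1 else 0)
  set f₁ : X →+ k := rep k X (x : G) v₀ with hf₁
  have hf₁0 : f₁ ≠ 0 := by
    intro e
    apply hv₀
    rw [← rep_one (G := G) k v₀, ← inv_mul_cancel (x : G), rep_mul, ← hf₁, e, map_zero]
  set ν : B × {b : B // b ≠ 1 ∧ b * b = 1} → k :=
    fun j => if φ (τ j) x = 0 then ν₀ j else - ν₀ j with hν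
  have hνeig : ∀ j, rep k X ((τ j : F) : G) f₁ = ν j • f₁ := by
    intro j
    rw [hf₁, hswap, hν₀ j, map_smul]
    simp only [hν]
    split_ifs <;> simp
  have hνne : ∀ i : {b : B // b ≠ 1 ∧ b * b = 1}, ν (i.1, i) ≠ ν (1, i) := by
    intro i
    have hxi := hx i
    have hτ1 : τ (1, i) = y i := by
      change θ 1 (y i) = y i
      simp
    have hvec : Frm.vec θ φ i.1 (y i) x = φ (τ (1, i)) x + φ (τ (i.1, i)) x := by
      rw [hτ1]; rfl
    have hxi' : φ (τ (1, i)) x + φ (τ (i.1, i)) x =
        if ν₀ (i.1, i) = ν₀ (1, i) then 1 else 0 := by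
      rw [← hvec]; exact hxi
    have hne0 := hν₀0 (1, i)
    have hne0' := hν₀0 (i.1, i)
    simp only [hν]
    have h11 : (1 : ZMod 2) + 1 = 0 := by decide
    have h10 : (1 : ZMod 2) ≠ 0 := by decide
    have hself : ∀ u : k, u ≠ 0 → u ≠ -u := by
      intro u hu e
      have h3 : 2 * u = 0 := by rw [two_mul]; nth_rewrite 1 [e]; simp
      rcases mul_eq_zero.mp h3 with h4 | h4
      · exact h2k h4
      · exact hu h4
    by_cases heq : ν₀ (i.1, i) = ν₀ (1, i)
    · rw [if_pos heq] at hxi'
      rw [heq]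
      rcases zmod2_cases (φ (τ (1, i)) x) with ha | ha <;>
      rcases zmod2_cases (φ (τ (i.1, i)) x) with hb | hb <;>
      rw [ha, hb] at hxi' ⊢
      · simp at hxi'
      · simpa using (hself _ hne0).symm
      · simpa using hself _ hne0
      · rw [h11] at hxi'
        exact absurd hxi'.symm h10
    · rw [if_neg heq] at hxi'
      rcases zmod2_cases (φ (τ (1, i)) x) with ha | ha <;>
      rcases zmod2_cases (φ (τ (i.1, i)) x) with hb | hb <;>
      rw [ha, hb] at hxi' ⊢
      · simpa using heq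
      · simp at hxi'
      · simp at hxi'
      · rw [if_neg h10, if_neg h10]
        exact fun e => heq (neg_injective e)
  -- the translates
  have hw := eq_zero_of_sum_eq_zero (k := k) (V := X →+ k)
    (fun j => rep k X ((τ j : F) : G)) (fun (d : B) j => ν (d⁻¹ * j.1, j.2)) Finset.univ (by
      intro d _ e _ hde
      by_contra hcon
      push Not at hcon
      set g : B := e⁻¹ * d with hg
      have hg1 : g ≠ 1 := by
        intro h1
        apply hde
        rw [hg] at h1
        exact (inv_mul_eq_one.mp h1).symm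
      have hstep : ∀ (c : B) i, ν (g * c, i) = ν (c, i) := by
        intro c i
        have h1 := hcon (d * c, i)
        simp only [← mul_assoc, inv_mul_cancel, one_mul] at h1
        rw [h1]
      have hpow : ∀ n : ℕ, ∀ i, ν (g ^ n, i) = ν (1, i) := by
        intro n i
        induction n with
        | zero => simp
        | succ n ih => rw [pow_succ', hstep, ih]
      obtain ⟨n, hn1, hn2⟩ : ∃ n : ℕ, g ^ n ≠ 1 ∧ g ^ n * g ^ n = 1 := by
        obtain ⟨r, hr⟩ := hB2 g
        have hex : ∃ r : ℕ, g ^ 2 ^ r = 1 := ⟨r, hr⟩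
        have hspec := Nat.find_spec hex
        have hpos : Nat.find hex ≠ 0 := by
          intro h0
          rw [h0] at hspec
          simp at hspec
          exact hg1 hspec
        refine ⟨2 ^ (Nat.find hex - 1), Nat.find_min hex (by omega), ?_⟩
        rw [← pow_add, ← two_mul, ← pow_succ']
        have : Nat.find hex - 1 + 1 = Nat.find hex := by omega
        rw [this]
        exact hspec
      exact hνne ⟨g ^ n, hn1, hn2⟩ (hpow n _))
    (fun d => rep k X (d : G) f₁) (by
      intro d _ j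
      rw [← rep_mul]
      have h1 : ((τ j : F) : G) * (d : G) = (d : G) * ((τ (d⁻¹ * j.1, j.2) : F) : G) := by
        change ((θ j.1 (y j.2) : F) : G) * (d : G) =
          (d : G) * ((θ (d⁻¹ * j.1) (y j.2) : F) : G)
        rw [hθ, hθ]
        push_cast
        group
      rw [h1, rep_mul, hνeig, map_smul]) (by
      apply DFunLike.ext
      intro v
      rw [AddMonoidHom.finsetSum_apply]
      simp only [rep_apply]
      rw [← map_sum]
      have hz : ∑ d : B, ((d : G)⁻¹ • v) = 0 := by
        apply hfix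
        intro b hb
        rw [Finset.smul_sum]
        refine Fintype.sum_equiv (Equiv.mulRight (⟨b, hb⟩ : B)⁻¹) _ _ ?_
        intro d
        rw [← mul_smul]
        congr 1
        simp
      rw [hz, map_zero]
      rfl) 1 (Finset.mem_univ _)
  apply hf₁0
  have h1 : rep k X (((1 : B) : B) : G) f₁ = 0 := hw
  rw [← h1]
  simp [rep_one]

/-- The eigenvector lemma. -/
theorem ks : KSSt := by
  classical
  intro m
  refine ⟨2 ^ ((m + 1) * (m * (m + 1))), ?_⟩
  intro G _ _ F B hF hB2 hBm q hq hq2 X _ _ _ _ hX hcomm hfix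
  by_contra hcon
  push Not at hcon
  have hv : ∃ v : X, v ≠ -v := by
    obtain ⟨v, hv⟩ := exists_ne (0 : X)
    refine ⟨v, fun e => hv ?_⟩
    have h2 : (2 : ℕ) • v = 0 := by
      rw [two_nsmul]; nth_rewrite 1 [e]; simp
    have h3 : addOrderOf v ∣ 2 := addOrderOf_dvd_of_nsmul_eq_zero h2
    have h4 : addOrderOf v ∣ q := addOrderOf_dvd_of_nsmul_eq_zero (hX v)
    have hcop : Nat.Coprime 2 q := (Nat.coprime_primes Nat.prime_two hq).mpr (Ne.symm hq2)
    have h5 : addOrderOf v ∣ 1 := hcop ▸ Nat.dvd_gcd h3 h4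
    rw [Nat.dvd_one, AddMonoid.addOrderOf_eq_one_iff] at h5
    exact h5
  let φ : F → F → ZMod 2 := fun x y =>
    if (∀ v : X, ⁅(x : G), (y : G)⁆ • v = v) then 0 else 1
  have hφ : ∀ x y : F, P X ⁅(x : G), (y : G)⁆ (φ x y) := by
    intro x y v
    by_cases h : ∀ v : X, ⁅(x : G), (y : G)⁆ • v = v
    · have : φ x y = 0 := if_pos h
      rw [this, if_pos rfl]
      exact h v
    · have : φ x y = 1 := if_neg h
      rw [this, if_neg (by decide)]
      exact (hcomm x x.2 y y.2).resolve_left h v
  let θ : B →* MulAut F := (MulAut.conjNormal (H := F)).comp B.subtype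
  have hθ : ∀ (c : B) (x : F), ((θ c x : F) : G) = c * x * (c : G)⁻¹ := by
    intro c x
    exact MulAut.conjNormal_apply (c : G) x
  have hfrm : Frm θ φ := by
    refine ⟨?_, ?_, ?_⟩
    · intro x y z
      refine P.unique hv (hφ _ _) ?_
      have h1 : ⁅((x * y : F) : G), (z : G)⁆ =
          ((x : G) * ⁅(y : G), (z : G)⁆ * (x : G)⁻¹) * ⁅(x : G), (z : G)⁆ := by
        push_cast
        simp only [commutatorElement_def]
        group
      rw [h1, add_comm]
      exact ((hφ y z).conj x).mul (hφ x z)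
    · intro x y
      refine P.unique hv (hφ _ _) ?_
      rw [← commutatorElement_inv]
      exact (hφ y x).inv
    · intro c x y
      refine P.unique hv (hφ _ _) ?_
      have h1 : ⁅((θ c x : F) : G), ((θ c y : F) : G)⁆ =
          (c : G) * ⁅(x : G), (y : G)⁆ * (c : G)⁻¹ := by
        rw [hθ, hθ]
        simp only [commutatorElement_def]
        group
      rw [h1]
      exact (hφ x y).conj c
  have hker : ∀ b : B, b ≠ 1 → b * b = 1 →
      2 ^ ((m + 1) * (m * (m + 1))) < (hfrm.psi b).ker.index := by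
    intro b hb1 hb2
    obtain ⟨D, hD, hlt⟩ := hcon b b.2 (fun e => hb1 (Subtype.ext e)) (by
      have := congrArg (Subtype.val) hb2
      simpa using this)
    refine lt_of_lt_of_eq hlt ?_
    rw [Subgroup.relIndex]
    congr 1
    ext x
    rw [Subgroup.mem_subgroupOf, hD, hfrm.mem_ker_psi]
    constructor
    · rintro ⟨-, h⟩ y
      have h1 := h y y.2
      have h2 : φ (x⁻¹ * θ b x) y = 0 := by
        refine P.unique hv (hφ _ _) ?_
        intro v
        rw [if_pos rfl]
        push_cast
        rw [hθ]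
        exact h1 v
      rw [hfrm.mul_left, hfrm.inv_left] at h2
      exact h2
    · intro h
      refine ⟨x.2, fun y hy v => ?_⟩
      have h2 := h ⟨y, hy⟩
      rw [← hfrm.inv_left x, ← hfrm.mul_left] at h2
      have h3 := hφ (x⁻¹ * θ b x) ⟨y, hy⟩ v
      rw [h2, if_pos rfl] at h3
      push_cast at h3
      rw [hθ] at h3
      exact h3
  have hcard : Nat.card {b : B // b ≠ 1 ∧ b * b = 1} ≤ m :=
    (Nat.card_le_card_of_injective _ Subtype.val_injective).trans hBm
  obtain ⟨y, hy1, hy2⟩ := Frm.claimA hfrm (ι := {b : B // b ≠ 1 ∧ b * b = 1})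
    (fun i => i.1) m hBm hcard (fun i => hker i.1 i.2.1 i.2.2)
  exact ks_core F B hF hB2 q hq hq2 hX hfix φ hφ θ hθ hfrm y hy1 hy2

end Pool.Agent.PLen
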