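import Pool.Agent.PLen.KSA
import Pool.Agent.PLen.KSB

set_option autoImplicit false

/-!
# The key lemma in the form of a representation over an algebraically closed field
-/

namespace Pool.Agent.PLen

open KSA Module
open KSB (exists_common_eigenvector eq_zero_of_sum_eq_zero zmod2_cases)

section

variable {k G W : Type*} [Field k] [Group G] [AddCommGroup W] [Module k W]

/-- the operator `ρ g` is the sign `(-1) ^ a` -/
def Q (ρ : Representation k G W) (g : G) (a : ZMod 2) : Prop :=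
  ρ g = if a = 0 then 1 else -1

lemma Q.mul {ρ : Representation k G W} {g h : G} {a b : ZMod 2} (hg : Q ρ g a) (hh : Q ρ h b) :
    Q ρ (g * h) (a + b) := by
  unfold Q at *
  rw [map_mul, hg, hh]
  rcases zmod2_cases a with rfl | rfl <;> rcases zmod2_cases b with rfl | rfl
  · simp
  · simp
  · simp
  · have h11 : (1 : ZMod 2) + 1 = 0 := by decide
    rw [h11]
    simp

lemma Q.inv {ρ : Representation k G W} {g : G} {a : ZMod 2} (hg : Q ρ g a) : Q ρ g⁻¹ a := by
  unfold Q at *
  have h1 : ρ g⁻¹ * ρ g = 1 := by rw [← map_mul, inv_mul_cancel, map_one]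
  rw [hg] at h1
  rcases zmod2_cases a with rfl | rfl
  · simpa using h1
  · simp only [one_ne_zero, if_false, mul_neg, mul_one] at h1 ⊢
    rw [← h1, neg_neg]

lemma Q.conj {ρ : Representation k G W} {g : G} {a : ZMod 2} (hg : Q ρ g a) (x : G) :
    Q ρ (x * g * x⁻¹) a := by
  unfold Q at *
  have h1 : ρ x * ρ x⁻¹ = 1 := by rw [← map_mul, mul_inv_cancel, map_one]
  rw [map_mul, map_mul, hg]
  rcases zmod2_cases a with rfl | rfl
  · simpa using h1
  · simpa using h1

lemma Q.unique {ρ : Representation k G W} [Nontrivial W] (h2 : (2 : k) ≠ 0) {g : G} {a b : ZMod 2}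
    (ha : Q ρ g a) (hb : Q ρ g b) : a = b := by
  have hne : (1 : End k W) ≠ -1 := by
    intro e
    obtain ⟨w, hw⟩ := exists_ne (0 : W)
    have h3 := LinearMap.congr_fun e w
    have h4 : (2 : k) • w = 0 := by
      rw [two_smul]
      have h5 : w = -w := by simpa using h3
      nth_rewrite 1 [h5]
      simp
    exact (smul_ne_zero h2 hw) h4
  unfold Q at *
  rw [ha] at hb
  rcases zmod2_cases a with rfl | rfl <;> rcases zmod2_cases b with rfl | rfl
  · rfl
  · simp only [if_true, one_ne_zero, if_false] at hb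
    exact absurd hb hne
  · simp only [if_true, one_ne_zero, if_false] at hb
    exact absurd hb.symm hne
  · rfl

end

/-- conjugation action of a subgroup on a normalised subgroup -/
def conjAct {G : Type*} [Group G] (F B : Subgroup G) (h : ∀ b ∈ B, ∀ x ∈ F, b * x * b⁻¹ ∈ F) :
    B →* MulAut F where
  toFun c :=
    { toFun := fun x => ⟨c * x * (c : G)⁻¹, h c c.2 x x.2⟩
      invFun := fun x => ⟨(c : G)⁻¹ * x * (c : G)⁻¹⁻¹, h _ (B.inv_mem c.2) x x.2⟩
      left_inv := fun x => Subtype.ext (by simp [mul_assoc])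
      right_inv := fun x => Subtype.ext (by simp [mul_assoc])
      map_mul' := fun x y => Subtype.ext (by simp [mul_assoc]) }
  map_one' := by
    ext x
    simp
  map_mul' c d := by
    ext x
    simp [mul_assoc]

lemma conjAct_apply {G : Type*} [Group G] (F B : Subgroup G)
    (h : ∀ b ∈ B, ∀ x ∈ F, b * x * b⁻¹ ∈ F) (c : B) (x : F) :
    ((conjAct F B h c x : F) : G) = c * x * (c : G)⁻¹ := rfl

/-- the core of the eigenvector argument, with the commuting family already chosen -/
theorem key_core {G : Type*} [Group G] [Finite G] (F B : Subgroup G) (hB2 : IsPGroup 2 B)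
    {k : Type*} [Field k] [IsAlgClosed k] {W : Type*} [AddCommGroup W] [Module k W]
    [FiniteDimensional k W] [Nontrivial W] (ρ : Representation k G W) (h2k : (2 : k) ≠ 0)
    (hfix : ∀ w : W, ∑ᶠ b : B, ρ (b : G) w = 0)
    (φ : F → F → ZMod 2)
    (hφ : ∀ x y : F, Q ρ ((x : G) * (y : G) * (x : G)⁻¹ * (y : G)⁻¹) (φ x y))
    (θ : B →* MulAut F) (hθ : ∀ (c : B) (x : F), ((θ c x : F) : G) = c * x * (c : G)⁻¹)
    (hfrm : Frm θ φ)
    (y : {b : B // b ≠ 1 ∧ b * b = 1} → F)
    (hy1 : ∀ i j, ∀ c : B, φ (y i) (θ c (y j)) = 0)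
    (hy2 : LinearIndependent (ZMod 2)
      (fun i : {b : B // b ≠ 1 ∧ b * b = 1} => Frm.vec θ φ i.1 (y i))) : False := by
  classical
  have : Fintype B := Fintype.ofFinite B
  have hmul : ∀ (g h : G) (w : W), ρ (g * h) w = ρ g (ρ h w) := by
    intro g h w
    rw [map_mul]; rfl
  have hone : ∀ w : W, ρ 1 w = w := by
    intro w
    rw [map_one]; rfl
  -- the commuting family
  let τ : B × {b : B // b ≠ 1 ∧ b * b = 1} → F := fun j => θ j.1 (y j.2)
  have hττ : ∀ j j', φ (τ j) (τ j') = 0 := by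
    intro j j'
    have h1 : φ (τ j) (τ j') = φ (y j.2) (θ (j.1⁻¹ * j'.1) (y j'.2)) := by
      change φ (θ j.1 (y j.2)) (θ j'.1 (y j'.2)) = _
      rw [hfrm.inv_act, map_mul]
      rfl
    rw [h1]
    exact hy1 _ _ _
  have hswap : ∀ (g x : F) (f : W), ρ (g : G) (ρ (x : G) f) =
      if φ g x = 0 then ρ (x : G) (ρ (g : G) f) else - ρ (x : G) (ρ (g : G) f) := by
    intro g x f
    rw [← hmul, ← hmul]
    have h1 : (g : G) * x = ((g : G) * x * (g : G)⁻¹ * (x : G)⁻¹) * (x * g) := by
      group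
    rw [h1, hmul, show ρ ((g : G) * x * (g : G)⁻¹ * (x : G)⁻¹) = _ from hφ g x]
    split_ifs <;> simp
  obtain ⟨v₀, hv₀, ν₀, hν₀⟩ := exists_common_eigenvector (k := k) (V := W)
    (fun j => ρ ((τ j : F) : G)) (by
      intro j j'
      apply LinearMap.ext
      intro f
      have h1 := hswap (τ j) (τ j') f
      rw [if_pos (hττ j j')] at h1
      exact h1)
  have hν₀0 : ∀ j, ν₀ j ≠ 0 := by
    intro j e
    have h1 := hν₀ j
    rw [e, zero_smul] at h1
    apply hv₀
    rw [← hone v₀, ← inv_mul_cancel ((τ j : F) : G), hmul, h1, map_zero]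
  -- choice of signs
  obtain ⟨x, hx⟩ := hfrm.exists_eval y (fun i => i.1) hy2
    (fun i => if ν₀ (i.1, i) = ν₀ (1, i) then 1 else 0)
  set f₁ : W := ρ (x : G) v₀ with hf₁
  have hf₁0 : f₁ ≠ 0 := by
    intro e
    apply hv₀
    rw [← hone v₀, ← inv_mul_cancel (x : G), hmul, ← hf₁, e, map_zero]
  set ν : B × {b : B // b ≠ 1 ∧ b * b = 1} → k :=
    fun j => if φ (τ j) x = 0 then ν₀ j else - ν₀ j with hν
  have hνeig : ∀ j, ρ ((τ j : F) : G) f₁ = ν j • f₁ := by
    intro j
    rw [hf₁, hswap, hν₀ j, map_smul]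
    simp only [hν]
    split_ifs <;> simp
  have hνne : ∀ i : {b : B // b ≠ 1 ∧ b * b = 1}, ν (i.1, i) ≠ ν (1, i) := by
    intro i
    have hxi := hx i
    have hτ1 : τ (1, i) = y i := by
      change θ 1 (y i) = y i
      simp
    have hvec : Frm.vec θ φ i.1 (y i) x = φ (τ (1, i)) x + φ (τ (i.1, i)) x := by
      rw [hτ1]; rfl
    have hxi' : φ (τ (1, i)) x + φ (τ (i.1, i)) x =
        if ν₀ (i.1, i) = ν₀ (1, i) then 1 else 0 := by
      rw [← hvec]; exact hxi
    have hne0 := hν₀0 (1, i)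
    have hne0' := hν₀0 (i.1, i)
    simp only [hν]
    have h11 : (1 : ZMod 2) + 1 = 0 := by decide
    have h10 : (1 : ZMod 2) ≠ 0 := by decide
    have hself : ∀ u : k, u ≠ 0 → u ≠ -u := by
      intro u hu e
      have h3 : 2 * u = 0 := by rw [two_mul]; nth_rewrite 1 [e]; simp
      rcases mul_eq_zero.mp h3 with h4 | h4
      · exact h2k h4
      · exact hu h4
    by_cases heq : ν₀ (i.1, i) = ν₀ (1, i)
    · rw [if_pos heq] at hxi'
      rw [heq]
      rcases zmod2_cases (φ (τ (1, i)) x) with ha | ha <;>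
      rcases zmod2_cases (φ (τ (i.1, i)) x) with hb | hb <;>
      rw [ha, hb] at hxi' ⊢
      · simp at hxi'
      · simpa using (hself _ hne0).symm
      · simpa using hself _ hne0
      · rw [h11] at hxi'
        exact absurd hxi'.symm h10
    · rw [if_neg heq] at hxi'
      rcases zmod2_cases (φ (τ (1, i)) x) with ha | ha <;>
      rcases zmod2_cases (φ (τ (i.1, i)) x) with hb | hb <;>
      rw [ha, hb] at hxi' ⊢
      · simpa using heq
      · simp at hxi'
      · simp at hxi'
      · rw [if_neg h10, if_neg h10]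
        exact fun e => heq (neg_injective e)
  -- the translates
  have hw := eq_zero_of_sum_eq_zero (k := k) (V := W)
    (fun j => ρ ((τ j : F) : G)) (fun (d : B) j => ν (d⁻¹ * j.1, j.2)) Finset.univ (by
      intro d _ e _ hde
      by_contra hcon
      push Not at hcon
      set g : B := e⁻¹ * d with hg
      have hg1 : g ≠ 1 := by
        intro h1
        apply hde
        rw [hg] at h1
        exact (inv_mul_eq_one.mp h1).symm
      have hstep : ∀ (c : B) i, ν (g * c, i) = ν (c, i) := by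
        intro c i
        have h1 := hcon (d * c, i)
        simp only [← mul_assoc, inv_mul_cancel, one_mul] at h1
        rw [h1]
      have hpow : ∀ n : ℕ, ∀ i, ν (g ^ n, i) = ν (1, i) := by
        intro n i
        induction n with
        | zero => simp
        | succ n ih => rw [pow_succ', hstep, ih]
      obtain ⟨n, hn1, hn2⟩ : ∃ n : ℕ, g ^ n ≠ 1 ∧ g ^ n * g ^ n = 1 := by
        obtain ⟨r, hr⟩ := hB2 g
        have hex : ∃ r : ℕ, g ^ 2 ^ r = 1 := ⟨r, hr⟩
        have hspec := Nat.find_spec hex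
        have hpos : Nat.find hex ≠ 0 := by
          intro h0
          rw [h0] at hspec
          simp at hspec
          exact hg1 hspec
        refine ⟨2 ^ (Nat.find hex - 1), Nat.find_min hex (by omega), ?_⟩
        rw [← pow_add, ← two_mul, ← pow_succ']
        have : Nat.find hex - 1 + 1 = Nat.find hex := by omega
        rw [this]
        exact hspec
      exact hνne ⟨g ^ n, hn1, hn2⟩ (hpow n _))
    (fun d => ρ (d : G) f₁) (by
      intro d _ j
      have h1 : ((τ j : F) : G) * (d : G) = (d : G) * ((τ (d⁻¹ * j.1, j.2) : F) : G) := by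
        change ((θ j.1 (y j.2) : F) : G) * (d : G) =
          (d : G) * ((θ (d⁻¹ * j.1) (y j.2) : F) : G)
        rw [hθ, hθ]
        push_cast
        group
      rw [← hmul, h1, hmul, hνeig, map_smul]) (by
      have h1 := hfix f₁
      rw [finsum_eq_sum_of_fintype] at h1
      exact h1) 1 (Finset.mem_univ _)
  apply hf₁0
  have h1 : ρ (((1 : B) : B) : G) f₁ = 0 := hw
  rw [← h1]
  simp [hone]

/-- The key lemma. -/
theorem key (m : ℕ) : ∃ K₂ : ℕ, ∀ (G : Type) [Group G] [Finite G] (F B : Subgroup G),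
    (∀ b ∈ B, ∀ x ∈ F, b * x * b⁻¹ ∈ F) → IsPGroup 2 B → Nat.card B ≤ m →
    ∀ (k : Type) [Field k] [IsAlgClosed k] (W : Type) [AddCommGroup W] [Module k W]
      [FiniteDimensional k W] [Nontrivial W] (ρ : Representation k G W), (2 : k) ≠ 0 →
    (∀ x ∈ F, ∀ y ∈ F, ρ (x * y * x⁻¹ * y⁻¹) = 1 ∨ ρ (x * y * x⁻¹ * y⁻¹) = -1) →
    (∀ w : W, ∑ᶠ b : B, ρ (b : G) w = 0) →
    ∃ b ∈ B, b ≠ 1 ∧ b * b = 1 ∧ ∀ D : Subgroup G,
      (∀ x, x ∈ D ↔ x ∈ F ∧ ∀ y ∈ F,
        ρ ((b * x * b⁻¹ * x⁻¹) * y * (b * x * b⁻¹ * x⁻¹)⁻¹ * y⁻¹) = 1) → D.relIndex F ≤ K₂ := by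
  classical
  refine ⟨2 ^ ((m + 1) * (m * (m + 1))), ?_⟩
  intro G _ _ F B hBF hB2 hBm k _ _ W _ _ _ _ ρ h2k hcomm hfix
  by_contra hcon
  push Not at hcon
  let φ : F → F → ZMod 2 := fun x y =>
    if ρ ((x : G) * y * (x : G)⁻¹ * (y : G)⁻¹) = 1 then 0 else 1
  have hφ : ∀ x y : F, Q ρ ((x : G) * y * (x : G)⁻¹ * (y : G)⁻¹) (φ x y) := by
    intro x y
    unfold Q
    by_cases h : ρ ((x : G) * y * (x : G)⁻¹ * (y : G)⁻¹) = 1
    · have : φ x y = 0 := if_pos h
      rw [this, if_pos rfl]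
      exact h
    · have : φ x y = 1 := if_neg h
      rw [this, if_neg (by decide)]
      exact (hcomm x x.2 y y.2).resolve_left h
  let θ : B →* MulAut F := conjAct F B hBF
  have hθ : ∀ (c : B) (x : F), ((θ c x : F) : G) = c * x * (c : G)⁻¹ := fun c x => rfl
  have hfrm : Frm θ φ := by
    refine ⟨?_, ?_, ?_⟩
    · intro x y z
      refine Q.unique h2k (hφ _ _) ?_
      have h1 : ((x * y : F) : G) * z * ((x * y : F) : G)⁻¹ * (z : G)⁻¹ =
          ((x : G) * (y * z * (y : G)⁻¹ * (z : G)⁻¹) * (x : G)⁻¹) *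
            (x * z * (x : G)⁻¹ * (z : G)⁻¹) := by
        push_cast
        group
      rw [h1, add_comm]
      exact ((hφ y z).conj x).mul (hφ x z)
    · intro x y
      refine Q.unique h2k (hφ _ _) ?_
      have h1 : (x : G) * y * (x : G)⁻¹ * (y : G)⁻¹ =
          ((y : G) * x * (y : G)⁻¹ * (x : G)⁻¹)⁻¹ := by group
      rw [h1]
      exact (hφ y x).inv
    · intro c x y
      refine Q.unique h2k (hφ _ _) ?_
      have h1 : ((θ c x : F) : G) * (θ c y : F) * ((θ c x : F) : G)⁻¹ * ((θ c y : F) : G)⁻¹ =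
          (c : G) * (x * y * (x : G)⁻¹ * (y : G)⁻¹) * (c : G)⁻¹ := by
        rw [hθ, hθ]
        group
      rw [h1]
      exact (hφ x y).conj c
  have hker : ∀ b : B, b ≠ 1 → b * b = 1 →
      2 ^ ((m + 1) * (m * (m + 1))) < (hfrm.psi b).ker.index := by
    intro b hb1 hb2
    obtain ⟨D, hD, hlt⟩ := hcon b b.2 (fun e => hb1 (Subtype.ext e)) (by
      have := congrArg (Subtype.val) hb2
      simpa using this)
    refine lt_of_lt_of_eq hlt ?_
    rw [Subgroup.relIndex]
    congr 1
    ext x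
    rw [Subgroup.mem_subgroupOf, hD, hfrm.mem_ker_psi]
    have hx2 : ∀ y : F, φ (θ b x * x⁻¹) y = φ x y + φ (θ b x) y := by
      intro y
      rw [hfrm.mul_left, hfrm.inv_left, add_comm]
    constructor
    · rintro ⟨-, h⟩ y
      rw [← hx2]
      have h1 := h y y.2
      refine Q.unique h2k (hφ _ _) ?_
      unfold Q
      rw [if_pos rfl]
      push_cast
      rw [hθ]
      exact h1
    · intro h
      refine ⟨x.2, fun y hy => ?_⟩
      have h2 := h ⟨y, hy⟩
      rw [← hx2] at h2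
      have h3 := hφ (θ b x * x⁻¹) ⟨y, hy⟩
      unfold Q at h3
      rw [h2, if_pos rfl] at h3
      push_cast at h3
      rw [hθ] at h3
      exact h3
  have hcard : Nat.card {b : B // b ≠ 1 ∧ b * b = 1} ≤ m :=
    (Nat.card_le_card_of_injective _ Subtype.val_injective).trans hBm
  obtain ⟨y, hy1, hy2⟩ := Frm.claimA hfrm (ι := {b : B // b ≠ 1 ∧ b * b = 1})
    (fun i => i.1) m hBm hcard (fun i => hker i.1 i.2.1 i.2.2)
  exact key_core F B hB2 ρ h2k hfix φ hφ θ hθ hfrm y hy1 hy2

end Pool.Agent.PLen
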